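import Pool.Agent.H61.KU.TC

/-!
# Kuiper board, modules TWO, SIM and S2 of part C
-/

open Set

namespace Pool.Agent.H31.KU

open Pool.Agent.H61.KU

variable {ι W : Type} [AddCommGroup W] [Module ℝ W]

theorem mem_sp_insert [DecidableEq ι] {v : ι → W} {F : Finset ι} {i : ι} {w : W} :
    w ∈ sp v (insert i F) ↔ ∃ a : ℝ, ∃ z ∈ sp v F, w = a • v i + z := by
  unfold sp
  rw [Finset.coe_insert, Set.image_insert_eq, Submodule.mem_span_insert]

theorem zero_on {v : ι → W} {F : Finset ι} {l : W →ₗ[ℝ] ℝ} (h : ∀ i ∈ F, l (v i) = 0) {w : W}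
    (hw : w ∈ sp v F) : l w = 0 := by
  have h1 : sp v F ≤ LinearMap.ker l := by
    unfold sp
    rw [Submodule.span_le]
    rintro _ ⟨i, hi, rfl⟩
    exact h i hi
  exact h1 hw

theorem pf_two (hF : T_FAC) : T_TWO := by
  intro ι W _ _ _ _ _ v T F x y z hT hTF hrk hx hy hz hxT hyT hzT hxy hyz hxz hfx hfy hfz
  obtain ⟨-, -, h3, -, -, h6, h7⟩ := hF ι W v
  have hyx : v y ∉ sp v (insert x T) := by
    intro h
    have h1 := h3 _ y hfx h
    rcases Finset.mem_insert.1 h1 with h2 | h2
    · exact hxy h2.symm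
    · exact hyT h2
  have hle : sp v (insert y (insert x T)) ≤ sp v F :=
    (h6 _ _ (Finset.insert_subset hy (Finset.insert_subset hx hTF))).1
  have hlt : sp v (insert x T) < sp v (insert y (insert x T)) := by
    refine lt_of_le_of_ne (h6 _ _ (Finset.subset_insert _ _)).1 ?_
    intro h
    apply hyx
    rw [h]
    exact Submodule.subset_span ⟨y, by simp, rfl⟩
  have hr1 : rk v (insert x T) = rk v T + 1 := h7 T x hT hxT
  have hr2 : rk v (insert x T) < rk v (insert y (insert x T)) :=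
    Submodule.finrank_lt_finrank_of_lt hlt
  have heq : sp v (insert y (insert x T)) = sp v F := by
    refine Submodule.eq_of_le_of_finrank_le hle ?_
    change rk v F ≤ rk v (insert y (insert x T))
    omega
  have hzF : v z ∈ sp v F := Submodule.subset_span ⟨z, hz, rfl⟩
  rw [← heq, mem_sp_insert] at hzF
  obtain ⟨b, w, hw, hzw⟩ := hzF
  rw [mem_sp_insert] at hw
  obtain ⟨a, t, ht, hwt⟩ := hw
  obtain ⟨lx, hlx0, hlx⟩ := hfx
  obtain ⟨ly, hly0, hly⟩ := hfy
  obtain ⟨lz, hlz0, hlz⟩ := hfz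
  have pos : ∀ (l : W →ₗ[ℝ] ℝ) (i j : ι), (∀ i, 0 ≤ l (v i)) →
      (∀ k, l (v k) = 0 ↔ k ∈ insert i T) → j ≠ i → j ∉ T → 0 < l (v j) := by
    intro l i j h0 hl hji hjT
    refine lt_of_le_of_ne (h0 j) fun h => ?_
    rcases Finset.mem_insert.1 ((hl j).1 h.symm) with h1 | h1
    · exact hji h1
    · exact hjT h1
  have zer : ∀ (l : W →ₗ[ℝ] ℝ) (i : ι), (∀ k, l (v k) = 0 ↔ k ∈ insert i T) →
      l (v i) = 0 ∧ l t = 0 := by
    intro l i hl
    exact ⟨(hl i).2 (Finset.mem_insert_self _ _),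
      zero_on (fun k hk => (hl k).2 (Finset.mem_insert_of_mem hk)) ht⟩
  have ex := congrArg lx hzw
  have ey := congrArg ly hzw
  have ez := congrArg lz hzw
  rw [hwt] at ex ey ez
  simp only [map_add, map_smul, smul_eq_mul, (zer lx x hlx).1, (zer lx x hlx).2,
    (zer ly y hly).1, (zer ly y hly).2, (zer lz z hlz).1, (zer lz z hlz).2, mul_zero, add_zero,
    zero_add] at ex ey ez
  have p1 := pos lx x z hlx0 hlx hxz.symm hzT
  have p2 := pos lx x y hlx0 hlx hxy.symm hyT
  have p3 := pos ly y z hly0 hly hyz.symm hzT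
  have p4 := pos ly y x hly0 hly hxy hxT
  have p5 := pos lz z x hlz0 hlz hxz hxT
  have p6 := pos lz z y hlz0 hlz hyz hyT
  have hb : 0 < b := by
    rw [ex] at p1
    exact (mul_pos_iff_of_pos_right p2).1 p1
  have ha : 0 < a := by
    rw [ey] at p3
    exact (mul_pos_iff_of_pos_right p4).1 p3
  have := mul_pos hb p6
  have := mul_pos ha p5
  linarith

theorem pf_sim (hF : T_FAC) : T_SIM := by
  intro ι W _ _ _ _ _ v F G hFF hcard hGF
  obtain ⟨-, -, -, h4, -, -, -⟩ := hF ι W v
  have hrange : ∀ S : Finset ι, Set.range (fun i : S => v i) = v '' (S : Set ι) := by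
    intro S
    ext w
    constructor
    · rintro ⟨i, rfl⟩
      exact ⟨i, i.2, rfl⟩
    · rintro ⟨i, hi, rfl⟩
      exact ⟨⟨i, hi⟩, rfl⟩
  have hli : LinearIndependent ℝ (fun i : F => v i) := by
    rw [linearIndependent_iff_card_eq_finrank_span, Fintype.card_coe, Set.finrank, hrange]
    exact hcard
  have hliG : LinearIndependent ℝ (fun i : G => v i) :=
    hli.comp (fun i : G => (⟨i, hGF i.2⟩ : F)) fun i j h => by
      have h1 := congrArg (fun k : F => (k : ι)) h
      exact Subtype.ext h1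
  refine ⟨?_, ?_⟩
  · obtain ⟨g, hg⟩ := LinearMap.exists_leftInverse_of_injective
      (Fintype.linearCombination ℝ (fun i : F => v i))
      (LinearMap.ker_eq_bot'.2 fun c hc => by
        rw [Fintype.linearCombination_apply] at hc
        exact funext (Fintype.linearIndependent_iff.1 hli c hc))
    set l : W →ₗ[ℝ] ℝ :=
      (∑ i ∈ Finset.univ.filter (fun i : F => (i : ι) ∉ G), LinearMap.proj i) ∘ₗ g with hl
    have hlv : ∀ i (hi : i ∈ F), l (v i) = if i ∈ G then 0 else 1 := by
      intro i hi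
      have h1 : g (v i) = Pi.single (⟨i, hi⟩ : F) 1 := by
        have h2 := congrArg (fun f => f (Pi.single (⟨i, hi⟩ : F) 1)) hg
        simp only [LinearMap.comp_apply, LinearMap.id_apply,
          Fintype.linearCombination_apply_single, one_smul] at h2
        exact h2
      rw [hl, LinearMap.comp_apply, h1, LinearMap.sum_apply]
      simp only [LinearMap.proj_apply, Pi.single_apply]
      rw [Finset.sum_ite_eq']
      by_cases hiG : i ∈ G
      · simp [hiG]
      · simp [hiG]
    obtain ⟨G', hG', hG''⟩ := h4 F hFF l (by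
      intro i hi
      rw [hlv i hi]
      split_ifs <;> norm_num)
    have : G' = G := by
      ext i
      rw [hG'']
      constructor
      · rintro ⟨hi, h1⟩
        by_contra hiG
        rw [hlv i hi, if_neg hiG] at h1
        exact one_ne_zero h1
      · intro hi
        exact ⟨hGF hi, by rw [hlv i (hGF hi), if_pos hi]⟩
    rwa [← this]
  · have h1 := finrank_span_eq_card hliG
    rw [hrange, Fintype.card_coe] at h1
    exact h1

theorem pf_s2 (hF : T_FAC) (h1 : T_S1) : T_S2 := by
  intro ι W _ _ _ _ _ v E hW hE T x hT hx hface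
  obtain ⟨-, -, -, -, h5, -, h7⟩ := hF ι W v
  obtain ⟨hTf, hTr⟩ := hE.face T hT
  have hr : rk v (insert x T) = 5 := by rw [h7 T x hTf hx, hTr]
  obtain ⟨T₁, hT₁, hT₁F, hne⟩ := hE.f3 T (insert x T) hT hface hr (Finset.subset_insert x T)
  obtain ⟨hT₁f, hT₁r⟩ := hE.face T₁ hT₁
  have hxT₁ : x ∈ T₁ := by
    by_contra hx₁
    have h2 : T₁ ⊆ T := fun i hi => by
      rcases Finset.mem_insert.1 (hT₁F hi) with h3 | h3
      · exact absurd (h3 ▸ hi) hx₁
      · exact h3
    have h3 := h5 T₁ T hT₁f (Finset.ssubset_iff_subset_ne.2 ⟨h2, hne⟩)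
    omega
  obtain ⟨y, hy, hFy⟩ := h1 ι W v E hW hE T₁ (insert x T) hT₁ hface hr hT₁F
  have hyx : y ≠ x := by
    rintro rfl
    exact hy hxT₁
  have hyT : y ∈ T := by
    have h2 : y ∈ insert x T := by
      rw [hFy]
      exact Finset.mem_insert_self _ _
    exact (Finset.mem_insert.1 h2).resolve_left hyx
  refine ⟨y, hyT, ?_⟩
  have h2 : insert x (T.erase y) = T₁ := by
    ext i
    have h3 : i ∈ insert x T ↔ i ∈ insert y T₁ := by rw [hFy]
    rw [Finset.mem_insert, Finset.mem_insert] at h3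
    rw [Finset.mem_insert, Finset.mem_erase]
    constructor
    · rintro (rfl | ⟨h4, h5⟩)
      · exact hxT₁
      · exact (h3.1 (Or.inr h5)).resolve_left h4
    · intro h4
      by_cases h5 : i = x
      · exact Or.inl h5
      · refine Or.inr ⟨?_, (h3.2 (Or.inr h4)).resolve_left h5⟩
        rintro rfl
        exact hy h4
  rw [h2]
  exact hT₁

end Pool.Agent.H31.KU
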